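import Mathlib
import Pool.Agent.X7.SidTuran

/-!
# MP_1de1cd_co: Sidorenko's inequality for Turan graphs
-/

set_option autoImplicit false
set_option maxHeartbeats 4000000

namespace Pool.Agent.Results.MP_1de1cd_co.SidorenkoTuran

open Pool.Agent.X7.SidTuran

/-- `R(3, G)`: the least `n` such that every graph on `n` vertices contains a triangle or has a
complement containing a copy of `G`. -/
noncomputable def ramsey3 {α : Type} (G : SimpleGraph α) : ℕ :=
  sInf {n | ∀ H : SimpleGraph (Fin n), ¬ H.CliqueFree 3 ∨ G.IsContained Hᶜ}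

/-- For all `2 ≤ w ≤ k` with `ln k < (3w-1)/(w-1)`, Sidorenko's inequality holds for `T(k, w)`:
every graph on `k + m(k, w)` vertices contains a triangle or has a complement containing
`T(k, w)`; in particular `R(3, T(k, w)) ≤ k + m(k, w)`. -/
theorem result (k w : ℕ) (hw : 2 ≤ w) (hwk : w ≤ k)
    (hk : Real.log k < (3 * (w : ℝ) - 1) / ((w : ℝ) - 1)) :
    (∀ H : SimpleGraph (Fin (k + (SimpleGraph.turanGraph k w).edgeFinset.card)),
      ¬ H.CliqueFree 3 ∨ (SimpleGraph.turanGraph k w).IsContained Hᶜ) ∧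
    ramsey3 (SimpleGraph.turanGraph k w) ≤ k + (SimpleGraph.turanGraph k w).edgeFinset.card := by
  classical
  have hmain : ∀ H : SimpleGraph (Fin (k + (SimpleGraph.turanGraph k w).edgeFinset.card)),
      ¬ H.CliqueFree 3 ∨ (SimpleGraph.turanGraph k w).IsContained Hᶜ := by
    intro H
    by_cases hH : H.CliqueFree 3
    swap
    · exact Or.inl hH
    right
    have htri : ∀ a b c, H.Adj a b → H.Adj b c → H.Adj c a → False := by
      intro a b c h1 h2 h3
      exact hH {a, b, c} (SimpleGraph.is3Clique_triple_iff.2 ⟨h1, h3.symm, h2⟩)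
    obtain ⟨t, rfl⟩ : ∃ t, w = t + 1 := ⟨w - 1, by omega⟩
    have ht : 1 ≤ t := by omega
    have hR : R k t := by
      unfold R
      have hkpos : (0 : ℝ) < k := by
        have : 0 < k := by omega
        exact_mod_cast this
      have htpos : (0 : ℝ) < t := by
        have : 0 < t := by omega
        exact_mod_cast this
      have e1 : ((t + 1 : ℕ) : ℝ) - 1 = t := by push_cast; ring
      rw [e1, lt_div_iff₀ htpos] at hk
      have h1 : Real.log ((k : ℝ) ^ t) < ((3 * t + 2 : ℕ) : ℝ) := by
        rw [Real.log_pow]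
        push_cast at hk ⊢
        linarith
      have h2 : (k : ℝ) ^ t < Real.exp 1 ^ (3 * t + 2) := by
        rw [← Real.exp_nat_mul, mul_one]
        exact (Real.log_lt_iff_lt_exp (by positivity)).1 h1
      have h3 : Real.exp 1 ^ (3 * t + 2) < (2.7182818286 : ℝ) ^ (3 * t + 2) :=
        pow_lt_pow_left₀ Real.exp_one_lt_d9 (Real.exp_pos 1).le (by omega)
      have h4 : (k : ℝ) ^ t * (10 ^ 10) ^ (3 * t + 2) < 27182818286 ^ (3 * t + 2) := by
        have e2 : (27182818286 : ℝ) = 2.7182818286 * 10 ^ 10 := by norm_num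
        rw [e2, mul_pow]
        exact mul_lt_mul_of_pos_right (h2.trans h3) (by positivity)
      exact_mod_cast h4
    obtain ⟨b1, b2⟩ := R_bounds ht hwk hR
    have hchain := chain_ok t b1 k b2 hwk hR
    have hM : (SimpleGraph.turanGraph k (t + 1)).edgeFinset.card = M k (t + 1) := by
      unfold M
      convert SimpleGraph.card_edgeFinset_turanGraph (n := k) (r := t + 1)
    have : Nonempty (Fin (k + (SimpleGraph.turanGraph k (t + 1)).edgeFinset.card)) :=
      ⟨⟨0, by omega⟩⟩
    obtain ⟨f, -, f2, f3⟩ := main (H := H) htri t k hchain Finset.univ (by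
      rw [Finset.card_univ, Fintype.card_fin, hM])
    refine ⟨⟨⟨fun i => f i, ?_⟩, ?_⟩⟩
    · intro i j hij
      rw [SimpleGraph.turanGraph_adj] at hij
      rw [SimpleGraph.compl_adj]
      refine ⟨?_, f3 _ i.2 _ j.2 hij⟩
      intro h
      exact hij (by rw [f2 _ i.2 _ j.2 h])
    · intro i j hij
      exact Fin.ext (f2 _ i.2 _ j.2 hij)
  exact ⟨hmain, Nat.sInf_le hmain⟩

end Pool.Agent.Results.MP_1de1cd_co.SidorenkoTuran
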